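import Pool.Agent.MP_ee8c61_ag.Q3.Defs
import Pool.Agent.MP_ee8c61_ag.M3F.LF
import Pool.Agent.MP_ee8c61_ag.M3J.Fin

/-! The surface lemmas without the hypothesis on the root. -/

namespace Pool.Agent.MP_ee8c61_ag.Q3P

open M3 M3RESID M3F Q3 Finset
open scoped IntermediateField

noncomputable section

variable {L : Type} [Field L] [Algebra ℂ L]

section Fib

open Polynomial WithZero Pool.Agent.MP_cce4c9_lc.H87

variable {C : Co L 2} {d : Dv L} {v : VF L} {b : ℂ} {t : L}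

theorem num0 (hf : FiniteDimensional (IntermediateField.adjoin ℂ (Set.range C.z)) L)
    (hr : ∃ (q : ℕ) (ψ : L), 0 < q ∧ ψ ≠ 0 ∧ ∀ X, d.δ X = C.dv.δ X + X ψ / (q * ψ))
    (ht : ∃ X : VF L, X t ≠ 0) (φ : L) (n : ℕ)
    (α : DV L → ℚ) : ∃ (Y : Derivation (Kz t) L L) (g : ℕ) (N : Place (Kz t) L → ℕ)
      (A : Place (Kz t) L → ℚ) (S : Finset (Place (Kz t) L)),
      M3G.Deg Y g N ∧ Num d t φ n α g N A S := by
  classical
  have := cz (Kz t)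
  let Y := rel (Kz t) (fib C t) fun _ hy => hy _ (fib_self C)
  have hY : Y ≠ 0 := fun h => by
    obtain ⟨i, hi⟩ := fib_ne C ht
    exact hi (congrArg (fun Z : Derivation (Kz t) L L => Z (C.z i)) h)
  obtain ⟨g, N, hD⟩ := gf (Kz t) L (isFF_Kz C hf ht) (cl_Kz t) Y hY
  obtain ⟨q, ψ, hq, hψ, hd⟩ := hr
  let S := (hD.fin φ).toFinset ∪ (hD.fin ψ).toFinset ∪ hD.finc.toFinset
  have hS : ∀ P, P ∉ S → P.ord φ = 0 ∧ P.ord ψ = 0 ∧ M3C.cw Y P = 0 := fun P hP => by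
    simpa [S, and_assoc] using hP
  refine ⟨Y, g, N, fun P => P.ord ψ / q + 1 + M3C.cw Y P, S, hD, fun P a ha => ?_,
    fun P hP => ⟨by simp [hS P hP], (hS P hP).1⟩, ?_, ?_⟩
  · exact exp_eq ha hq hψ (by rw [hd, fib_dv, zero_add]) (M3C.val_unif P)
      (hD.uni P _ (M3C.val_unif P)) (hD.reg P)
  · have h1 : ∑ P ∈ S, (N P : ℚ) * P.ord ψ = 0 := by
      exact_mod_cast hD.deg ψ S fun P hP => (hS P hP).2.1
    have h2 : ∑ P ∈ S, (N P : ℚ) * M3C.cw Y P = 2 * g - 2 := by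
      exact_mod_cast hD.can S fun P hP => (hS P hP).2.2
    rw [← h2, ← zero_add (∑ P ∈ S, (N P : ℚ) * M3C.cw Y P), ← zero_div (q : ℚ), ← h1, sum_div,
      ← sum_add_distrib]
    exact sum_congr rfl fun P _ => by ring
  · exact_mod_cast hD.deg φ S fun P hP => (hS P hP).1

/-- A horizontal curve of exponent zero forces the class `α` to vanish on all horizontal
curves. -/
theorem fib00 {φ : L} {n : ℕ} {α : DV L → ℚ} (hS : Srf0 C d v b) (ht : ∃ X : VF L, X t ≠ 0)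
    (h1 : ∀ o, Hor (Kz t) o → ∃ a : ℚ, Exp d o a ∧ (a = α o ∨ (α o = 0 ∧ Hon d v o a)))
    (hn : 0 < n) (h2 : ∀ o, Hor (Kz t) o → n * α o ≤ o.v φ) (h0 : ∃ o, Hor (Kz t) o ∧ Exp d o 0)
    (o' : DV L) (ho' : Hor (Kz t) o') : α o' = 0 := by
  obtain ⟨o, ho, h3⟩ := h0
  obtain ⟨Y, g, N, A, S, hD, hN⟩ := num0 hS.fin hS.rat ht φ n α
  have h := hN.cls h1 hn h2
  have hN' : ∀ P, (1 : ℚ) ≤ N P := fun P => by exact_mod_cast hD.pos P
  have hg : (0 : ℚ) ≤ g := Nat.cast_nonneg _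
  obtain ⟨P, rfl⟩ := exists_place ho
  obtain ⟨P', rfl⟩ := exists_place ho'
  by_contra h4
  have e : A P = 0 := (hN.uniq P 0 (by simpa using h3)).symm
  have e' : α (dvOf P) = 0 := (h.cls P).elim (fun x => x ▸ e) And.left
  have m : P ∈ S := by_contra fun x => by linarith [h.off P x |>.1]
  obtain ⟨P₀, h₀⟩ := h.neg hD.pos ⟨P', h4⟩
  obtain ⟨m₀, e₀⟩ := h.core h₀.ne
  have hne : P ≠ P₀ := fun x => by rw [x] at e'; linarith
  rcases h.le.lt_or_eq with hlt | h0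
  · have s2 := le_two (N := N) h.nn m m₀ hne
    rw [h.sum, e₀, e, e'] at s2
    linarith [hN' P, hN' P₀]
  · obtain ⟨P₁, h₁⟩ := h.pos hD.pos h0 h₀
    obtain ⟨m₁, e₁⟩ := h.core h₁.ne'
    have s3 := le_three (N := N) h.nn m m₀ m₁ hne (fun x => by rw [x] at e'; linarith)
      (fun x => by rw [x] at h₀; linarith)
    rw [h.sum, e₀, e₁, e, e', h0] at s3
    linarith [hN' P, hN' P₀, hN' P₁]

/-- Negative degree: genus zero and exactly one real place, which is negative. -/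
theorem one_neg {α : DV L → ℚ} {g : ℕ} {N : Place (Kz t) L → ℕ} {A : Place (Kz t) L → ℚ}
    {S : Finset (Place (Kz t) L)} {Y : Derivation (Kz t) L L} (hD : M3G.Deg Y g N)
    (h : Cls d v t α g N A S) (hlt : ∑ P ∈ S, (N P : ℚ) * α (dvOf P) < 0) :
    g = 0 ∧ ∃ P₀, α (dvOf P₀) < 0 ∧ A P₀ = α (dvOf P₀) ∧ N P₀ = 1 ∧ ∀ P, P ≠ P₀ →
      (A P = 1 ∧ Good d v (dvOf P)) ∨ (P ∈ S ∧ α (dvOf P) = 0 ∧ 0 < A P ∧ A P ≤ 1 / 2) := by
  have hN : ∀ P, (1 : ℚ) ≤ N P := fun P => by exact_mod_cast hD.pos P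
  obtain ⟨P₀, h₀⟩ := h.neg hD.pos (by
    by_contra x
    push Not at x
    simp [x] at hlt)
  obtain ⟨m₀, e₀⟩ := h.core h₀.ne
  have s1 := le_one (N := N) h.nn m₀
  rw [h.sum, e₀] at s1
  have hg : g = 0 := by
    have : (g : ℚ) < 1 := by linarith [hN P₀]
    exact Nat.lt_one_iff.1 (by exact_mod_cast this)
  subst hg
  have n₀ : N P₀ = 1 := by
    have : (N P₀ : ℚ) < 2 := by push_cast at s1; linarith
    have h1 : N P₀ < 2 := by exact_mod_cast this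
    have := hD.pos P₀
    omega
  refine ⟨rfl, P₀, h₀, e₀, n₀, fun P hP => ?_⟩
  ·
    rcases h.cls P with e | ⟨e, e' | e'⟩
    · exfalso
      have m : P ∈ S := by_contra fun x => by linarith [h.off P x |>.1, h.off P x |>.2]
      have s2 := le_two (N := N) h.nn m₀ m hP.symm
      rw [h.sum, e₀, e] at s2
      push_cast at s2
      linarith [hN P, hN P₀]
    · exact Or.inl e'
    · exact Or.inr ⟨by_contra fun x => by linarith [h.off P x |>.1], e, e'⟩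

/-- A strict inequality gives negative degree. -/
theorem cls_lt {φ : L} {n : ℕ} {α : DV L → ℚ} {g : ℕ} {N : Place (Kz t) L → ℕ}
    {A : Place (Kz t) L → ℚ} {S : Finset (Place (Kz t) L)} {Y : Derivation (Kz t) L L}
    (hD : M3G.Deg Y g N) (hN : Num d t φ n α g N A S) (h : Cls d v t α g N A S) (hn : 0 < n)
    (h2 : ∀ o, Hor (Kz t) o → n * α o ≤ o.v φ) {o : DV L} (ho : Hor (Kz t) o)
    (h3 : n * α o < o.v φ) : ∑ P ∈ S, (N P : ℚ) * α (dvOf P) < 0 := by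
  obtain ⟨P, rfl⟩ := exists_place ho
  have hn' : (0 : ℚ) < n := by exact_mod_cast hn
  have m : P ∈ S := by_contra fun x => by
    rw [(h.off P x).2, show (dvOf P).v φ = 0 from (hN.off P x).2] at h3
    simp at h3
  refine lt_of_mul_lt_mul_left ?_ hn'.le
  rw [mul_zero, ← hN.deg, mul_sum]
  refine sum_lt_sum (fun P _ => ?_) ⟨P, m, ?_⟩ <;> rw [mul_left_comm]
  · exact mul_le_mul_of_nonneg_left (h2 _ (hor_dvOf P)) (Nat.cast_nonneg _)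
  · exact mul_lt_mul_of_pos_left h3 (by exact_mod_cast hD.pos P)

end Fib

variable {D : SD L} {t : L}

/-- The properties that do not involve the volume form. -/
structure OK2 (D : SD L) : Prop where
  fin : FiniteDimensional (IntermediateField.adjoin ℂ (Set.range D.C.z)) L
  sem : D.Sem
  nul : D.Nul
  big : D.Big

theorem _root_.Pool.Agent.MP_ee8c61_ag.Q3.OK1.ok2 (h : OK1 D) : OK2 D :=
  ⟨h.vol.srf.fin, h.sem, h.nul, h.big⟩

theorem pc_of1 (h : D.Small) (ht : ∃ X : VF L, X t ≠ 0) (hm : t ∈ RF D.x D.S0) : Pc D t := by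
  obtain ⟨X, h0, hX⟩ := h
  obtain ⟨κ, rfl⟩ := fib_mul D.C ht (hX t hm)
  refine ⟨ht, fun g hg => (mem_Kz D.C ht).2 ?_⟩
  have h1 : κ * fib D.C t g = 0 := hX g hg
  exact (mul_eq_zero.1 h1).resolve_left fun e => h0 (by rw [e, zero_smul])

theorem _root_.Pool.Agent.MP_ee8c61_ag.M3F.Pc.hor1
    (p : Pc D t) (h : OK2 D) : ∃ Γ, Hor (Kz t) Γ := by
  obtain ⟨i, hi⟩ := fib_ne D.C p.der
  exact (exists_pole D.C h.fin p.der fun e => hi (e _ (fib_self D.C))).imp fun _ x => x.1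

theorem _root_.Pool.Agent.MP_ee8c61_ag.M3F.Pc.s01
    (p : Pc D t) (h : OK2 D) :
    ∃ s, s ≠ 0 ∧ ∀ Γ, Hor (Kz t) Γ → (Γ.v s : ℚ) = -(D.m * D.th D.t0 Γ) := by
  obtain ⟨Γ₀, h₀⟩ := p.hor1 h
  obtain ⟨s, ⟨h1, h2, -⟩, -⟩ := h.sem.dg0 _ (p.cv h₀)
  refine ⟨s, h2, fun Γ hΓ => ?_⟩
  obtain ⟨r, ⟨g1, g2, -⟩, g3⟩ := h.sem.dg0 _ (p.cv hΓ)
  have := hΓ.unit (p.le (rat_mem _ g1 h1))
  rw [div_eq_mul_inv, Γ.mul _ _ h2 (inv_ne_zero g2), Γ.inv] at this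
  rw [← g3]
  exact_mod_cast (by omega : Γ.v s = Γ.v r)

theorem _root_.Pool.Agent.MP_ee8c61_ag.M3F.Pc.mov1
    (p : Pc D t) (h : OK2 D) {s : L} (hs : s ≠ 0) :
    ∃ Γ, Hor (Kz t) Γ ∧ -(D.m * D.th D.t1 Γ) < Γ.v s := by
  by_contra hn
  push Not at hn
  have key : ∀ r ∈ D.S1, r / s ∈ Kz t := fun r hr => by
    by_contra e
    obtain ⟨Γ, h1, h2⟩ := exists_pole D.C h.fin p.der e
    have r0 : r ≠ 0 := fun x => e (by rw [x, zero_div]; exact zero_mem _)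
    rw [div_eq_mul_inv, Γ.mul _ _ r0 (inv_ne_zero hs), Γ.inv] at h2
    have h3 := (hn Γ h1).trans (dg_le (h.sem.dg1 _ (p.cv h1)) hr r0)
    have h4 : Γ.v s ≤ Γ.v r := by exact_mod_cast h3
    omega
  obtain ⟨i, hi⟩ := fib_ne D.C p.der
  refine hi (by
    rw [h.big (fib D.C t) fun g hg => (?_ : RF D.x D.S1 ≤ Kz t) hg _ (fib_self D.C)]
    · rfl
    rw [RF, IntermediateField.adjoin_le_iff]
    rintro _ (⟨l, rfl⟩ | ⟨r, hr, r', hr', rfl⟩)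
    · exact p.le (x_mem _ _ l)
    · rw [← div_div_div_cancel_right₀ hs]
      exact div_mem (key r' hr') (key r hr))

theorem _root_.Pool.Agent.MP_ee8c61_ag.M3F.Pc.nn1
    (p : Pc D t) (h : OK2 D) (hm : t ∈ RF D.x D.S0) {Γ : DV L} (hΓ : Hor (Kz t) Γ) :
    ¬Null D.x D.S0 Γ := fun hn => by
  obtain ⟨s, hs, -⟩ := h.sem.dg0 _ (p.cv hΓ)
  have k : ∀ g ∈ RF D.x D.S0, ¬NC Γ g → g ∈ (⊥ : IntermediateField ℂ L) := fun g hg e => by
    by_contra x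
    exact e (hΓ.nc (p.le hg) fun c y => x (y ▸ IntermediateField.algebraMap_mem _ c))
  have : RF D.x D.S0 ≤ ⊥ := by
    rw [RF, IntermediateField.adjoin_le_iff]
    rintro _ (⟨l, rfl⟩ | ⟨r, hr, r', hr', rfl⟩)
    · exact k _ (x_mem _ _ l) (hn.1 l)
    · rw [← div_div_div_cancel_right₀ hs.2.1]
      exact div_mem (k _ (rat_mem _ hs.1 hr') (hn.2 s hs r' hr'))
        (k _ (rat_mem _ hs.1 hr) (hn.2 s hs r hr))
  obtain ⟨c, hc⟩ := IntermediateField.mem_bot.1 (this hm)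
  exact ne_of_der p.der c hc.symm

theorem cls_of1 (h : D.Kvl) {Γ : DV L} (hc : Cv D.x Γ) (hn : ¬Null D.x D.S1 Γ) :
    D.ex Γ = D.α Γ ∨ (D.α Γ = 0 ∧ Hon D.d D.v Γ (D.ex Γ)) :=
  (h Γ hc hn).imp (fun ⟨_, x⟩ => x.1) fun x => ⟨by simp [SD.α, x.1], x.2⟩

theorem _root_.Pool.Agent.MP_ee8c61_ag.M3F.Pc.death1
    (p : Pc D t) (h : OK2 D) (h0 : 0 < D.t0) :
    ∃ (φ : L) (n : ℕ), 0 < n ∧ φ ≠ 0 ∧ (∀ Γ, Hor (Kz t) Γ → n * D.α Γ ≤ Γ.v φ) ∧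
      ∃ Γ, Hor (Kz t) Γ ∧ n * D.α Γ < Γ.v φ := by
  obtain ⟨s₀, a0, a1⟩ := p.s01 h
  obtain ⟨Γ₀, h₀⟩ := p.hor1 h
  obtain ⟨s₁, ⟨b1, b0, -⟩, -⟩ := h.sem.dg1 _ (p.cv h₀)
  have h1 := h.sem.t1
  obtain ⟨r, hr, p₀, p₁, e₀, e₁⟩ : ∃ r : ℚ, 0 < r ∧ ∃ p₀ p₁ : ℤ, r * D.t0 = p₀ ∧ r * D.t1 = p₁ :=
    ⟨D.t0.den * D.t1.den, by positivity, D.t0.num * D.t1.den, D.t1.num * D.t0.den, by
      push_cast; rw [← Rat.mul_den_eq_num]; ring, by push_cast; rw [← Rat.mul_den_eq_num]; ring⟩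
  have q0 : (0 : ℚ) < p₀ := e₀ ▸ mul_pos hr h0
  have q1 : p₀ < p₁ := by
    have : (p₀ : ℚ) < p₁ := e₀ ▸ e₁ ▸ mul_lt_mul_of_pos_left h1 hr
    exact_mod_cast this
  obtain ⟨n, hn⟩ := Int.eq_ofNat_of_zero_le (sub_pos.2 q1).le
  have hn' : (n : ℚ) = p₁ - p₀ := by exact_mod_cast hn.symm
  have key : ∀ Γ, Hor (Kz t) Γ → (Γ.v (s₁ ^ p₀ / s₀ ^ p₁) : ℚ) - ((D.m * n : ℕ) : ℚ) * D.α Γ =
      p₀ * (Γ.v s₁ + D.m * D.th D.t1 Γ) := fun Γ hΓ => by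
    rw [div_eq_mul_inv, Γ.mul _ _ (zpow_ne_zero _ b0) (inv_ne_zero (zpow_ne_zero _ a0)), Γ.inv,
      dv_zpow Γ b0, dv_zpow Γ a0]
    push_cast
    rw [a1 Γ hΓ, hn', th_eq, th_eq, ← e₀, ← e₁]
    ring
  refine ⟨s₁ ^ p₀ / s₀ ^ p₁, D.m * n, Nat.mul_pos h.sem.m (by omega),
    div_ne_zero (zpow_ne_zero _ b0) (zpow_ne_zero _ a0), fun Γ hΓ => ?_, ?_⟩
  · have := dg_le (h.sem.dg1 _ (p.cv hΓ)) b1 b0
    rw [← sub_nonneg, key Γ hΓ]
    exact mul_nonneg q0.le (by linarith)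
  · obtain ⟨Γ, hΓ, x⟩ := p.mov1 h b0
    exact ⟨Γ, hΓ, by rw [← sub_pos, key Γ hΓ]; exact mul_pos q0 (by linarith)⟩

theorem exists_pc1 (h : D.Small) (hp : ¬D.Pt) : ∃ t, t ∈ RF D.x D.S0 ∧ Pc D t := by
  by_contra hn
  push Not at hn
  exact hp fun g hg X => by_contra fun e => hn g hg (pc_of1 h ⟨X, e⟩ hg)

theorem _root_.Pool.Agent.MP_ee8c61_ag.M3F.Pc.zero1
    (p : Pc D t) (h : OK2 D) (h0 : D.t0 = 0) :
    ∃ φ, φ ≠ 0 ∧ ∀ Γ, Hor (Kz t) Γ → D.m * D.α Γ ≤ Γ.v φ := by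
  obtain ⟨s, a0, a1⟩ := p.s01 h
  refine ⟨s⁻¹, inv_ne_zero a0, fun Γ hΓ => ?_⟩
  rw [Γ.inv, Int.cast_neg, a1 Γ hΓ, th_eq, h0]
  simp

theorem _root_.Pool.Agent.MP_ee8c61_ag.M3F.Pc.pos1
    (p : Pc D t) (h : OK2 D) : ∃ Γ, Hor (Kz t) Γ ∧ 0 < D.th D.t1 Γ := by
  obtain ⟨Γ, hΓ, x⟩ := p.mov1 h one_ne_zero
  rw [Γ.one] at x
  have hm : (0 : ℚ) < D.m := by exact_mod_cast h.sem.m
  exact ⟨Γ, hΓ, (mul_pos_iff_of_pos_left hm).1 (by push_cast at x; linarith)⟩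

section Mdl

open M3J M3S M3SB Pool.Agent.MP_96693b_ag.RS Pool.Agent.MP_cce4c9_lc.H87 WithZero

variable {M : Model L 2}

theorem exists_tr1 (h : OK2 D) (hp : D.Pt) (n0 : ∀ p, NoB D.S0 (M.loc p).O)
    (n1 : ∀ p, NoB D.S1 (M.loc p).O) (nj : ∀ j p, NoB (D.Sj j) (M.loc p).O) :
    ∃ B S, Tr D M B S := by
  classical
  have hM := thmFnd _ M
  have hx := pt_x M hp
  have cv := cv_of hM.toB1 hx
  obtain ⟨Θ0, h0⟩ := exists_th hM.toFinS n0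
  obtain ⟨Θ1, h1⟩ := exists_th hM.toFinS n1
  choose Θ hj using fun j => exists_th hM.toFinS (nj j)
  have hm : (0 : ℝ) < D.m := Nat.cast_pos.2 h.sem.m
  have hε : (0 : ℝ) < D.ε := by exact_mod_cast h.sem.ε
  let B : D.A → Dr M := fun j => ((D.m : ℝ) * D.ε)⁻¹ • (Θ j - Θ1)
  have co : ∀ j Γ, B j Γ = D.β j (oC Γ) := fun j Γ => by
    simp only [B, Finsupp.smul_apply, Finsupp.sub_apply, smul_eq_mul]
    rw [th_dg (hj j) (h.sem.dgj j _ (cv Γ)), th_dg h1 (h.sem.dg1 _ (cv Γ))]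
    push_cast
    field_simp
    ring
  have e : ∀ (t : ℚ) (Θ' : Dr M), (∀ Γ, Θ' Γ = ((D.m * D.th t (oC Γ) : ℚ) : ℝ)) →
      ∑ j, ((D.al j + t * D.h j : ℚ) : ℝ) • B j = (D.m : ℝ)⁻¹ • Θ' := fun t Θ' e => by
    ext Γ
    rw [sum_co co, Finsupp.smul_apply, e, smul_eq_mul, Rat.cast_mul, Rat.cast_natCast,
      inv_mul_cancel_left₀ hm.ne']
    rfl
  have e0 := e _ Θ0 fun Γ => th_dg h0 (h.sem.dg0 _ (cv Γ))
  have e1 := e _ Θ1 fun Γ => th_dg h1 (h.sem.dg1 _ (cv Γ))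
  have big : 0 < II M Θ1 Θ1 := h1.big' hM D.C fun δ hδ => h.big δ fun g hg => by
    have : RF D.x D.S1 ≤ cst {δ} := IntermediateField.adjoin_le_iff.2 (by
      rintro _ (⟨l, rfl⟩ | ⟨s, hs, s', hs', rfl⟩) _ e
      · obtain ⟨c, e'⟩ := hx l
        rw [e', Derivation.map_algebraMap]
      · exact Set.mem_singleton_iff.1 e ▸ hδ s hs s' hs')
    exact this hg δ rfl
  obtain ⟨T, hT, hN, -⟩ := (thmOK _ M).tools.null Θ1 (h1.nef hM) big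
  refine ⟨B, T.filter fun Γ => Null D.x D.S1 (oC Γ), cv, co, ?_, ?_, fun Γ => ?_,
    hN.mono (filter_subset _ _), fun j G hG => ?_,
    fun Γ hΓ hn => hΓ (mem_filter.2 ⟨(hT Γ).2 (th_null h1 hM hn.2), hn⟩), fun s hs Γ hΓ => ?_⟩
  · rw [e1]
    exact M3SN.Nef.smul (I := II M) (h1.nef hM) (inv_nonneg.2 hm.le)
  · rw [e1]
    simp only [map_smul, LinearMap.smul_apply, smul_eq_mul]
    positivity
  · rw [e0, map_smul, LinearMap.smul_apply, th_null h0 hM fun s hs s' hs' => not_nc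
      (const_of_der hM (hp _ (IntermediateField.subset_adjoin _ _
        (Or.inr ⟨s, hs.1, s', hs', rfl⟩)))), smul_zero]
  · have hn := (mem_filter.1 hG).2
    simp only [B, map_smul, map_sub, LinearMap.smul_apply, LinearMap.sub_apply]
    rw [th_null h1 hM hn.2, th_null (hj j) hM ((h.nul _ (cv G) hn).2 j).2, sub_zero, smul_zero]
  · have s0 : s ≠ 0 := fun e => by simp [e] at hΓ
    have a1 := h0.le hs s0 Γ
    have a2 : (Γ.1.ord s : ℝ) < 0 := by exact_mod_cast hΓ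
    rw [e0, Finsupp.smul_apply, smul_eq_mul]
    exact mul_ne_zero (inv_ne_zero hm.ne') (by linarith)

theorem exists_ad1 (h : OK1 D) (hp : D.Pt) {R : Finset L} (hR : ∃ r ∈ R, r ≠ 0) :
    ∃ (M : Model L 2) (J : Finset (Crv M)) (B : D.A → Dr M) (S : Finset (Crv M)),
      Tr D M B S ∧ SncC (J : Set (Crv M)) ∧ (∀ p, NoB R (M.loc p).O) ∧
      ∀ Γ ∉ J, D.ex (oC Γ) = 1 ∧ (∀ j, D.β j (oC Γ) = 0) ∧ Reg (oC Γ) D.v := by
  classical
  obtain ⟨M0, -⟩ := exists_mdl D.C h.vol.srf.fin (κ := Empty) Empty.elim fun k => k.elim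
  obtain ⟨p0, -⟩ := ROK.off (thmFnd _ M0) ∅
  obtain ⟨Γ0, -⟩ := (thmFnd _ M0).thru p0 0 (zero_mem _) (by simpa using (M0.loc p0).ev_alg 0)
  have c0 := cv_of (thmB1 _ M0) (pt_x M0 hp) Γ0
  have ne : ∀ {T : Finset L} {n : ℚ}, Dg T (oC Γ0) n → ∃ s ∈ T, s ≠ 0 :=
    fun ⟨s, hs, _⟩ => ⟨s, hs.1, hs.2.1⟩
  obtain ⟨M1, h1⟩ := exists_mdl D.C h.vol.srf.fin (κ := D.A ⊕ Fin 3)
    (Sum.elim D.Sj ![D.S0, D.S1, R]) (by
      rintro (j | k)
      · exact ne (h.sem.dgj j _ c0)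
      · fin_cases k
        exacts [ne (h.sem.dg0 _ c0), ne (h.sem.dg1 _ c0), hR])
  have hM := thmFnd _ M1
  obtain ⟨B1, S1, t1⟩ := exists_tr1 h.ok2 hp (h1 (.inr 0)) (h1 (.inr 1)) fun j => h1 (.inl j)
  obtain ⟨M, hd, J, s1, s2, s3, -⟩ := thmSnc _ M1 ((univ.biUnion fun j => (B1 j).support) ∪
    (reg_fin hM.toB1 D.v).toFinset ∪ (KD M1).support ∪ (hM.fin (rho D.C)).toFinset ∪
    (hM.fin D.ψ).toFinset)
  have up : ∀ k p, NoB (Sum.elim D.Sj ![D.S0, D.S1, R] k) (M.loc p).O := fun k p => by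
    obtain ⟨b, hb⟩ := hd p
    obtain ⟨s, a1, a2, a3⟩ := h1 k b
    exact ⟨s, a1, a2, fun s' hs' => hb (a3 s' hs')⟩
  obtain ⟨B, S, t⟩ := exists_tr1 h.ok2 hp (up (.inr 0)) (up (.inr 1)) fun j => up (.inl j)
  refine ⟨M, J, B, S, t, s1, up (.inr 2), fun Γ hΓ => ?_⟩
  obtain ⟨C, hC⟩ : ∃ C : Crv M1, C.1 = Γ.1 := by
    by_contra! hn
    exact hΓ (s3 Γ hn)
  have h2 := mt (fun a => s2 C a Γ hC.symm) hΓ
  simp only [mem_union, not_or, mem_biUnion, mem_univ, true_and, not_exists,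
    Finsupp.mem_support_iff, not_not, Set.Finite.mem_toFinset, Set.mem_ofPred_eq] at h2
  obtain ⟨⟨⟨⟨a1, a2⟩, a3⟩, a4⟩, a5⟩ := h2
  rw [show oC Γ = oC C from congrArg dvP hC.symm]
  refine ⟨?_, fun j => ?_, a2⟩
  · have := exp_eq hM.toB2 h.vol.q0 h.vol.ψ0 h.vol.rat (h.vol.exp _ (t1.cv C))
    rw [a3, a4, a5] at this
    have h3 : (D.ex (oC C) : ℝ) = 1 := by simpa [sub_eq_zero] using this
    exact_mod_cast h3
  · have := a1 j
    rw [t1.co] at this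
    exact_mod_cast this

/-- On a complete surface, a function without poles on the curves that are not contracted by a
big family is constant. -/
theorem fix0 (C : M3RESID.Co L 2)
    (hf : FiniteDimensional (IntermediateField.adjoin ℂ (Set.range C.z)) L) {x : Fin 3 → L}
    (hx : ∀ l, ∃ c : ℂ, x l = algebraMap ℂ L c) {S : Finset L} (hS : ∃ s ∈ S, s ≠ 0)
    (hb : ∀ X : VF L, (∀ g ∈ RF x S, X g = 0) → X = 0) {g : L}
    (hg : ∀ Γ, Cv x Γ → ¬Null x S Γ → g ∈ Γ.F 0) : ∃ c : ℂ, g = algebraMap ℂ L c := by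
  classical
  obtain ⟨M, n1⟩ := exists_mdl C hf (κ := Unit) (fun _ => S) fun _ => hS
  have hM := thmFnd _ M
  have cv := cv_of hM.toB1 hx
  obtain ⟨Θ1, h1⟩ := exists_th hM.toFinS (n1 ())
  have big : 0 < II M Θ1 Θ1 := h1.big' hM C fun δ hδ => hb δ fun g hg => by
    have : RF x S ≤ cst {δ} := IntermediateField.adjoin_le_iff.2 (by
      rintro _ (⟨l, rfl⟩ | ⟨s, hs, s', hs', rfl⟩) _ e
      · obtain ⟨c, e'⟩ := hx l
        rw [e', Derivation.map_algebraMap]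
      · exact Set.mem_singleton_iff.1 e ▸ hδ s hs s' hs')
    exact this hg δ rfl
  obtain ⟨T, hT, hN, -⟩ := (thmOK _ M).tools.null Θ1 (h1.nef hM) big
  have h0 : g ∈ H0 (0 : Dr M) :=
    (mem_H0_off hM (hN.mono (filter_subset (fun Γ => Null x S (oC Γ)) _)) (by simp) g).2
      fun Γ hΓ => by
        simpa using mem_dvP0.1 (hg _ (cv Γ) fun hn =>
          hΓ (mem_filter.2 ⟨(hT Γ).2 (th_null h1 hM hn.2), hn⟩))
  have := hM.hfin (0 : Dr M)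
  have hi : IsIntegral ℂ g := isIntegral_of_smul_mem_submodule (H0 (0 : Dr M))
    (Submodule.ne_bot_iff _ |>.2 ⟨1, fun Γ => by simp, one_ne_zero⟩)
    (Module.Finite.iff_fg.1 this) g fun u hu Γ => by
      have a := h0 Γ
      have b := hu Γ
      simp only [Finsupp.zero_apply, Int.floor_zero, exp_zero] at a b ⊢
      rw [smul_eq_mul, map_mul]
      exact mul_le_one' a b
  by_contra! hn
  exact tr_of_nc hn hi.isAlgebraic

theorem pt_x1 (h : OK2 D) (hp : D.Pt) (l : Fin 3) : ∃ c : ℂ, D.x l = algebraMap ℂ L c :=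
  (exists_mdl D.C h.fin (κ := Empty) Empty.elim fun k => k.elim).elim fun M _ => pt_x M hp l

theorem exists_cv (C : M3RESID.Co L 2)
    (hf : FiniteDimensional (IntermediateField.adjoin ℂ (Set.range C.z)) L) {x : Fin 3 → L}
    (hx : ∀ l, ∃ c : ℂ, x l = algebraMap ℂ L c) : ∃ Γ, Cv x Γ := by
  obtain ⟨M0, -⟩ := exists_mdl C hf (κ := Empty) Empty.elim fun k => k.elim
  obtain ⟨p0, -⟩ := ROK.off (thmFnd _ M0) ∅
  obtain ⟨Γ0, -⟩ := (thmFnd _ M0).thru p0 0 (zero_mem _) (by simpa using (M0.loc p0).ev_alg 0)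
  exact ⟨_, cv_of (thmB1 _ M0) hx Γ0⟩

/-- The same for a surface datum. -/
theorem OK2.fix (h : OK2 D) (hx : ∀ l, ∃ c : ℂ, D.x l = algebraMap ℂ L c) {g : L}
    (hg : ∀ Γ, Cv D.x Γ → ¬Null D.x D.S1 Γ → g ∈ Γ.F 0) : ∃ c : ℂ, g = algebraMap ℂ L c := by
  obtain ⟨Γ, hΓ⟩ := exists_cv D.C h.fin hx
  obtain ⟨s, hs, -⟩ := h.sem.dg1 Γ hΓ
  exact fix0 D.C h.fin hx ⟨s, hs.1, hs.2.1⟩ h.big hg

end Mdl

end

end Pool.Agent.MP_ee8c61_ag.Q3P
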