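import Pool.Agent.MP_ee8c61_ag.Q3.Defs
import Pool.Agent.MP_ee8c61_ag.M3.FinK
import Pool.Agent.MP_ee8c61_ag.M3CH.RIAS
import Pool.Agent.MP_ee8c61_ag.M3CH.RISem
import Pool.Agent.MP_ee8c61_ag.M3RESID.U3
import Pool.Agent.MP_ee8c61_ag.M3I44.Sgn
import Pool.Agent.MP_ee8c61_ag.M3I44.Rows
import Pool.Agent.MP_ee8c61_ag.M3K.IPen
import Pool.Agent.MP_ee8c61_ag.M3KV.IKvl

/-! The rows of the main theorem without the hypothesis on the root. -/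

namespace Pool.Agent.MP_ee8c61_ag.Q3P

open M3 Q3

def IVol0 : Prop := AllI0 fun C la b o X Y => Vol0 (C.sd la b o X Y)

def ISem0 : Prop := AllI0 fun C la b o X Y => (C.sd la b o X Y).Sem

def INul0 : Prop := AllI0 fun C la b o X Y => (C.sd la b o X Y).Nul

def IBig0 : Prop := AllI0 fun C la b o X Y => (C.sd la b o X Y).Big

def ISgn0 : Prop := AllI0 fun C la b o X Y => (C.sd la b o X Y).Sgn

def IKvl0 : Prop := AllI0 fun C la b o X Y => (C.sd la b o X Y).Kvl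

end Pool.Agent.MP_ee8c61_ag.Q3P

namespace Pool.Agent.MP_ee8c61_ag.M3RESID

open M3 Finset

theorem rowIAV0 : Q3.IAV0 := by
  intro f la b β Q M o H hM ho
  obtain ⟨C', ψ, e, h1, h2, h3⟩ := exists_rat (P := (M.v o).pl) hM ho rfl
  obtain ⟨v, hv⟩ := Pl.exists_Res (P := (M.v o).pl) (exp_v0 hM ho) (v := bf la β) (by
    rw [bf_δ H.bs]
    exact sub_mem (cst_F _ _) ((M.v o).F_anti zero_le_one (fQ_F hM H.bs la o)))
  exact ⟨⟨C', la.den, ψ, e, v⟩, C'.fin (kf_fg (P := (M.v o).pl) hM rfl), la.pos, h1, h3, h2, hv⟩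

theorem rowIVol0 : Q3P.IVol0 := by
  intro f la b β Q M C o X Y h hX hY
  refine ⟨⟨hX.fin, ⟨_, _, hX.q0, hX.ψ0, hX.rat⟩,  res_prim h.ok h.hyp.bs rfl hX.rd hX.rv⟩, hX.q0, hX.ψ0, hX.rat, fun Γ hΓ => ?_⟩
  obtain ⟨p, hp⟩ := hΓ.sur
  obtain ⟨g, hg⟩ := hΓ.nc
  obtain ⟨C2, -, hA⟩ := cv_at X.Co hX.fin hp hg.1 hg.2
  exact Classical.epsilon_spec (p := fun a : ℚ => Exp X.d Γ a) ⟨_, exp_cv hA hX.ψ0 hX.rat⟩

end Pool.Agent.MP_ee8c61_ag.M3RESID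

namespace Pool.Agent.MP_ee8c61_ag.M3CH

open M3 M3E M3RESID Finset

open RISem in
theorem rISem0 (E : EOut) : Q3P.ISem0 := by
  intro f la b β Q M C o X Y hS _ hY
  have hd := (M3K.rowKa E (M3K.rowNg0 E) 3 f M C hS.ok).dead
  have th := th_eq C o hd hS.ok hS.zero b X Y
  have z := pt_zero C o hS.ok hS.zero
  refine ⟨C.t0, hY.t1, hY.ε, hY.m, fun Γ hΓ => ?_, fun Γ hΓ => ?_, fun j Γ hΓ => ?_⟩
  · rw [th]
    exact dg' C o E hS.alive Γ hΓ.bas (z _) hY.c0 hY.T0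
  · rw [th]
    exact dg' C o E hS.alive Γ hΓ.bas (z _) hY.c1 hY.T1
  · have h0 : (C.pt la o Y.t1 + Y.ε • M.q (M.e j.1)) o = 0 := by
      rw [Pi.add_apply, z, Pi.smul_apply, Mod.q_apply, Mod.e_apply, if_neg (Ne.symm j.2.1),
        Int.cast_zero, smul_zero, add_zero]
    have q := dg' C o E hS.alive Γ hΓ.bas h0 (hY.cj j.1) (hY.Tj j.1)
    have e : ∑ i, C.P (C.pt la o Y.t1 + Y.ε • M.q (M.e j.1)) i * (C.W.tr (M.v o).pl Γ i : ℚ) =
        ∑ i, C.P (C.pt la o Y.t1) i * (C.W.tr (M.v o).pl Γ i : ℚ) +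
          Y.ε * ∑ i, C.P (M.q (M.e j.1)) i * (C.W.tr (M.v o).pl Γ i : ℚ) := by
      rw [map_add, map_smul, mul_sum, ← sum_add_distrib]
      refine sum_congr rfl fun i _ => ?_
      rw [Pi.add_apply, Pi.smul_apply, smul_eq_mul]
      ring
    rw [e] at q
    rw [th]
    exact q

end Pool.Agent.MP_ee8c61_ag.M3CH

namespace Pool.Agent.MP_ee8c61_ag.M3I44

open M3 M3E M3K M3RESID Finset

variable {f : Po 3} {la : ℚ} {M : Mod 3} {o : M.J}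

theorem ibig0 (hE : EOut) (hK : SKa) (hB : SBir) : Q3P.IBig0 := by
  intro f la b β Q M C o X Y h _ hY Z hZ
  have K := hK 3 f M C h.ok
  have B := hE.bas 3 f C.W C.ok
  have hc := co_zero h.alive hY.c1 (pt_o h.ok h.zero _)
  obtain ⟨n, r, x, L, ρ, -, r0, e1, e2, e3⟩ := rel K (inn_mem hY.inn) hY.m hY.c1
  have hP : Pz C x L := ⟨e2, by
    rw [e1, ← Nat.cast_smul_eq_nsmul ℚ]
    exact inn_smul hY.inn (Nat.cast_pos.2 r0)⟩
  obtain ⟨μ, F, w, Ξ, b1, b2, b3, b4, b5⟩ := K.big x L o hP h.alive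
  have hb : Big C.W (C.D.e o) Y.c1 := ⟨μ * n, F + (μ * ρ) • C.W.aa, w, Ξ,
    B.free_add _ _ b1 (B.free_aa _), b2, b3, b4, by
      rw [mul_smul, e3, smul_add, b5, mul_smul, natCast_zsmul]
      abel⟩
  obtain ⟨s, s1, s2⟩ := hY.T1.2 _ (B.ov_v (C.D.e o))
  have s0 := gen_ne C.ok B (po C o) hc (B.ov_v _) (po C o ▸ le_rfl) s2
  have kill : ∀ u, Bs C.W ⊤ Y.c1 s u → Z ((M.v o).pl.π u) = 0 := fun u hu =>
    (cl_of C.ok B (po C o) hc hY.T1 s1 s0 fun V h1 h2 => hu V h1 le_top h2).kill _ (sub_RF s1) hZ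
  ext y
  obtain ⟨g, g1, rfl⟩ := (M.v o).pl.surj y
  obtain ⟨u, u1, u2, u3⟩ := hB 3 f C.W C.ok _ _ s hb (hY.T1.1 s s1) s2 g (po C o ▸ g1)
  rw [← po C o] at u2
  have u4 := (DV.un_O _).1 u2
  have k1 := kill _ u3
  rw [(M.v o).pl.mul u u2.2.1 g g1, Derivation.leibniz, kill _ u1, smul_zero, add_zero,
    smul_eq_mul] at k1
  exact (mul_eq_zero.1 k1).resolve_left (ne_of_un u4.1 u4.2)

theorem ismall0 (hE : EOut) (hK : SKa) (hW : SWall) : Q3.ISmall0 := by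
  intro f la b β Q M C o X Y h _ hY hD
  have K := hK 3 f M C h.ok
  have B := hE.bas 3 f C.W C.ok
  have B' := hE.bas 3 f M h.ok
  have hc := co_zero h.alive hY.c0 (pt_o h.ok h.zero _)
  obtain ⟨n, r, x, L, ρ, n0, r0, e1, e2, e3⟩ := rel K C.mem hY.m hY.c0
  obtain ⟨s, s1, s2⟩ := hY.T0.2 _ (B.ov_v (C.D.e o))
  have s0 := gen_ne C.ok B (po C o) hc (B.ov_v _) (po C o ▸ le_rfl) s2
  have eL : n • Y.c0 + (-ρ) • C.W.aa = L := by rw [e3, neg_smul, add_neg_cancel_right]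
  have σ1 : s ^ n * ip 3 f ^ (- -ρ) ∈ M.H x := by
    have := e2.H 1
    rw [one_smul, one_smul] at this
    rw [this, ← eL]
    exact fun V hV => B.oc_mul V _ _ _ _ (B.oc_pow V _ _ n (hY.T0.1 s s1 V hV))
      (B.gen_oc V _ _ (gen_fz B V hV C.ok _))
  have σ2 : M.Gen (M.v o).O x (s ^ n * ip 3 f ^ (- -ρ)) := by
    have h1 := (B.gen_v _ _ _).1 (eL ▸ B.gen_mul _ _ _ _ _ (B.gen_pow _ _ _ n s2)
      (gen_fz B _ (B.ov_v _) C.ok (-ρ)))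
    have h2 := congrFun e2.eq (C.D.e o)
    rw [h.alive, Mod.q_apply, Mod.q_apply, Int.cast_inj] at h2
    rw [C.D.v, h2] at h1
    exact (B'.gen_v _ _ _).2 h1
  have σ3 : ∀ V, Ov V → C.W.Gen V L (s ^ n * ip 3 f ^ (- -ρ)) → C.W.Gen V Y.c0 s :=
    fun V hV hg => B.gen_root V _ _ n n0 (B.gen_of_mul V _ _ _ _
      (B.oc_pow V _ _ n (hY.T0.1 s s1 V hV)) (B.gen_oc V _ _ (gen_fz B V hV C.ok _)) (eL ▸ hg))
  let P := (M.v o).pl
  let S : Set (M.v o).kf := Set.range (fun l => P.π (xx 3 l)) ∪ (fun s' => P.π s' / P.π s) '' Y.T0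
  have hS : ∀ y ∈ S, ∃ τ ∈ P.o.F 0, P.π τ = y ∧ Bs C.W ⊤ L (s ^ n * ip 3 f ^ (- -ρ)) τ := by
    rintro _ (⟨l, rfl⟩ | ⟨s', hs', rfl⟩)
    · exact ⟨xx 3 l, B'.ov_v o _, rfl, fun V hV _ _ => hV _⟩
    · obtain ⟨a1, a2⟩ := pl_div (sec_mem B (po C o) hc (hY.T0.1 s' hs'))
        (sec_mem B (po C o) hc (hY.T0.1 s s1)) s0
      exact ⟨s' / s, a1, a2, fun V hV _ hg =>
        (B.oc_div V _ s' s hV (σ3 V hV hg)).1 (hY.T0.1 s' hs' V hV)⟩
  have main : ∃ Z : VF (M.v o).kf, Z ≠ 0 ∧ ∀ y ∈ S, Z y = 0 := by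
    by_cases h1 : ∃ a ∈ S, ∃ Z : VF (M.v o).kf, Z a ≠ 0
    · obtain ⟨a, ha, Z, hZ⟩ := h1
      refine ⟨M3F.fib X.Co a, fun e => ?_, fun y hy => ?_⟩
      · obtain ⟨i, hi⟩ := M3F.fib_ne X.Co ⟨Z, hZ⟩
        exact hi (by rw [e]; rfl)
      obtain ⟨τ, τ1, rfl, τ2⟩ := hS a ha
      obtain ⟨τ', τ3, rfl, τ4⟩ := hS y hy
      obtain ⟨Φ, Φ0, Φ1⟩ := hW f M C h.ok o h.alive hD r x L e1 r0 e2 _ σ1 σ2 ![τ, τ'] τ2 τ4
      obtain ⟨k1, k2⟩ := pl_aeval (P := P) (τ := ![τ, τ'])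
        (fun i => by fin_cases i; exacts [τ1, τ3]) Φ
      refine kill_dep hZ (M3F.fib_self X.Co) Φ0 ?_
      rw [← (P.ker _ k1).2 Φ1, k2]
      congr 2
      funext i
      fin_cases i <;> rfl
    · push Not at h1
      refine ⟨X.Co.D 0, fun e => ?_, fun y hy => h1 y hy _⟩
      have := X.Co.dual 0 0
      rw [e] at this
      simp at this
  obtain ⟨Z, Z0, Z1⟩ := main
  refine ⟨Z, Z0, fun g hg => ?_⟩
  let F : IntermediateField ℂ (M.v o).kf :=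
    { carrier := {g | Z g = 0}
      mul_mem' := fun {a b} ha hb => by
        show Z (a * b) = 0
        rw [Derivation.leibniz, show Z a = 0 from ha, show Z b = 0 from hb, smul_zero, smul_zero,
          add_zero]
      add_mem' := fun {a b} ha hb => by
        show Z (a + b) = 0
        rw [map_add, show Z a = 0 from ha, show Z b = 0 from hb, add_zero]
      algebraMap_mem' := fun c => Z.map_algebraMap c
      inv_mem' := fun a ha => by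
        show Z a⁻¹ = 0
        rw [Derivation.leibniz_inv, show Z a = 0 from ha, smul_zero] }
  refine (IntermediateField.adjoin_le_iff.2 ?_ : _ ≤ F) hg
  classical
  rintro _ (⟨l, rfl⟩ | ⟨_, h1, _, h2, rfl⟩)
  · exact Z1 _ (Or.inl ⟨l, rfl⟩)
  · obtain ⟨u, hu, rfl⟩ := mem_image.1 h1
    obtain ⟨u', hu', rfl⟩ := mem_image.1 h2
    rw [← div_div_div_cancel_right₀ s0]
    exact F.div_mem (Z1 _ (Or.inr ⟨u', hu', rfl⟩)) (Z1 _ (Or.inr ⟨u, hu, rfl⟩))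

theorem inul0 (hE : EOut) (hK : SKa) : Q3P.INul0 := by
  classical
  intro f la b β Q M C o X Y h _ hY Γ hΓ hN
  have K := hK 3 f M C h.ok
  have hc := co_zero h.alive hY.c1 (pt_o h.ok h.zero _)
  refine ⟨null_of hE K hY.inn hY.m hY.c1 hY.c0 hc (co_zero h.alive hY.c0 (pt_o h.ok h.zero _))
    hY.T1 hY.T0 (fun _ => mem_image) (fun _ => mem_image) hΓ.bas hN, fun j =>
    null_of hE K hY.inn hY.m hY.c1 (hY.cj j.1) hc (co_zero h.alive (hY.cj j.1) ?_) hY.T1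
      (hY.Tj j.1) (fun _ => mem_image) (fun _ => mem_image) hΓ.bas hN⟩
  simp [pt_o h.ok h.zero, M.e_apply, j.2.1.symm]

theorem real_sd0 (E : EOut) (hA : SKa) (hR : SRf) (hU : SUp) (hVol : Q3P.IVol0) {b : Polynomial ℂ}
    {β : Fin 3 → H59.PX 3 (KK 3)} {Q : H59.PX 3 (KK 3)} {C : Ch f M} {X : Ch.AV (M := M) o}
    {Y : C.AS o} (h : Q3.Sit0 f la b β Q M C o) (hX : X.OK f la β) (hY : Y.OK la)
    {Γ : DV (M.v o).kf} (hΓ : M3.Cv (C.sd la b o X Y).x Γ) :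
    ∃ (W' : Mod 3) (D : Dom W' C.W) (h' : RfOK C D) (i : W'.J), Rf C D h' ∧
      M3Z.Fl f W' (M.v o).pl Γ.pl (D.e (C.D.e o)) i ∧
      (∀ j : C.Nb o, (C.sd la b o X Y).β j Γ = (refine C D h').P (M.q (M.e j.1)) i) ∧
      (C.sd la b o X Y).α Γ = (refine C D h').P (M.ex la) i ∧
      (C.sd la b o X Y).ex Γ = W'.ex la i ∧
      dl (refine C D h') i = (C.sd la b o X Y).ex Γ - (C.sd la b o X Y).α Γ := by
  classical
  have K := hA 3 f M C h.ok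
  have L : Lv C.W (C.D.e o) (M.v o).pl Γ :=
    lv_of C.ok (E.bas 3 f _ C.ok).toBas1 (C.D.v o).symm hΓ.bas
  obtain ⟨W', D, hW', i, hF, -, hs⟩ := real_lv E hU C.ok L hΓ.sur hΓ.nc
  obtain ⟨h', R⟩ := hR 3 f M C h.ok W' D hW'
  have hβ : ∀ j : C.Nb o, (C.sd la b o X Y).β j Γ = (refine C D h').P (M.q (M.e j.1)) i :=
    fun j => hs _ (by rw [h.alive]; simp [Mod.e_apply, j.2.1.symm])
  have hα : (C.sd la b o X Y).α Γ = (refine C D h').P (M.ex la) i := by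
    show _ = pbL D (C.P (M.ex la)) i
    rw [sum_nb K h.zero, map_sum, Finset.sum_apply]
    refine sum_congr rfl fun (j : C.Nb o) _ => ?_
    rw [map_smul]
    exact congrArg (M.ex la j.1 * ·) (hβ j)
  have h3 : Exp (dvf f la) (M.v o).pl.o 0 := by
    have := exp_v h.ok la o
    rwa [h.zero, Rat.cast_zero] at this
  have he := hF.exp_eq h3 hX.rd ((hVol _ _ _ _ _ _ _ _ _ _ h hX hY).exp Γ hΓ)
  refine ⟨W', D, h', i, R, hF, hβ, hα, he, ?_⟩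
  rw [he, hα]
  exact dl_eq (hA 3 f M (refine C D h') h.ok) la i

theorem isgn0 (E : EOut) (hA : SKa) (hB : SKb) (hR : SRf) (hU : SUp) (hVol : Q3P.IVol0) : Q3P.ISgn0 := by
  intro f la b β Q M C o X Y h hX hY Γ hΓ
  obtain ⟨W', D, h', i, R, hF, hβ, -, -, hd⟩ := real_sd0 E hA hR hU hVol h hX hY hΓ
  have B' := hB 3 f M (refine C D h') h.ok
  refine ⟨fun j => le_of_le_of_eq ?_ (hβ j).symm, sub_nonneg.1 (hd ▸ B'.dl0 i), fun e => ?_⟩
  · refine (hA 3 f M (refine C D h') h.ok).mono _ (fun l => ?_) i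
    show (0 : ℚ) ≤ (M.e j.1 l : ℤ)
    rw [Mod.e_apply]
    split_ifs <;> simp
  · obtain ⟨j, j1, j2, -, j3⟩ := B'.pltP o i hF.isc.1 (by rw [hd, e, sub_self])
    exact ⟨⟨j, j1, (R.alive j).1 j2⟩, j3.trans_eq (hβ ⟨j, j1, (R.alive j).1 j2⟩).symm⟩

theorem rowSgn0 (E : EOut) (hVol : Q3P.IVol0) : Q3P.ISgn0 :=
  isgn0 E (rowKa E (rowNg0 E)) (rowKb E (rowKa E (rowNg0 E)))
    (rowRf E (rowTh E) (rowKa E (rowNg0 E))) (rowUp E rowTr rowTc) hVol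

end Pool.Agent.MP_ee8c61_ag.M3I44

namespace Pool.Agent.MP_ee8c61_ag.M3KV

open H59 M3 M3E M3K M3RESID Finset

theorem ikvl0 (hE : EOut) (hK : KOut) : Q3P.IKvl0 := by
  intro f la b β Q M C o X Y h hX hY Γ hΓ hn
  classical
  have K := hK.ka 3 f M C h.ok
  have B := hE.bas 3 f C.W C.ok
  have hC := hE.cv 3 f C.W C.ok
  have hP : (M.v o).pl.o = C.W.v (C.D.e o) := (C.D.v o).symm
  have hL : Lv C.W (C.D.e o) (M.v o).pl Γ := lv_of C.ok B.toBas1 hP hΓ.bas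
  have h0 : C.W.ex la (C.D.e o) = 0 := by
    rw [RIT.ex_W C K, Pi.add_apply, ((hK.kb 3 f M C h.ok).alive o).1 h.alive, h.alive, h.zero,
      add_zero]
  have hc : Y.c1 (C.D.e o) = 0 := by
    have a : (M.a o : ℚ) ≠ 0 := Nat.cast_ne_zero.2 (h.ok.pos o).ne'
    have q := congrFun hY.c1 (C.D.e o)
    rw [Mod.q_apply, Pi.smul_apply, h.alive] at q
    simpa [Ch.pt, Ch.hp, Mod.aa, h.zero, div_mul_cancel₀ _ a] using q
  obtain ⟨p, hp⟩ := hΓ.sur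
  have hN : Nn C.W (lift (M.v o).pl Γ) Y.c1 := by
    by_contra e
    refine hn ⟨fun l q => e ?_, fun s hs s' hs' q => e (hL.nn_of hY.T1 hc hs hs' q)⟩
    obtain ⟨g, g1, g2⟩ := hY.T1.2 _ hL.ov
    obtain ⟨a, ha⟩ := hL.cov
    refine ⟨g, hY.T1.1 g g1, xx 3 l * g, fun V hV a ha => ?_, g2, ?_⟩
    · rw [mul_assoc]
      exact mul_mem (hV _) (hY.T1.1 g g1 V hV a ha)
    · rw [mul_div_cancel_right₀ _ (left_ne_zero_of_mul (g2 a ha).1)]
      exact (hL.nc_x l).1 q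
  obtain ⟨s, s1, s', s2, s3, s4⟩ := id hN
  rcases hL.dich hK.up C.ok (fun a ha => (hK.ng0 3 f C.W C.ok).lc _ _ a s s1 s' s2 ha s3) s4 with
    ⟨i, hi⟩ | hi
  · have hβ : ∀ j : C.Nb o, (C.sd la b o X Y).β j Γ = C.P (M.q (M.e j.1)) i := fun j =>
      hL.sum_cv hC ⟨p, hp⟩ hi _
    have hx : (C.sd la b o X Y).ex Γ = dl C i + (C.sd la b o X Y).α Γ := by
      refine (RIT.eps_eq ⟨p, hp⟩ (exp_isCv C.ok hP h0 hX.rd hp hi)).trans ?_
      rw [RIT.ex_W C K, Pi.add_apply, RIT.P_sum C K h.zero]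
      exact congrArg _ (sum_congr rfl fun j _ => by rw [hβ]; rfl)
    obtain ⟨c, L, n, h1, h2⟩ := pz_of hE hK h.ok hY hL.ov hN
    rcases hK.kvl f M C h.ok o i _ c L n h.alive h1 hi h2 with
      ⟨h3, j, h4, h5, h6⟩ | ⟨e, h3, h4, h5, h6⟩
    · refine Or.inl ⟨⟨j, h5.1, h4⟩, by rw [hx, h3, zero_add], by rw [hβ, h6 j h5.1, if_pos rfl],
        fun k hk => ?_⟩
      rw [hβ, h6 _ k.2.1, if_neg fun q => hk (Subtype.ext q)]
    have h7 : ∀ j, (C.sd la b o X Y).β j Γ = 0 := fun j => by rw [hβ, h5 _ j.2.1]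
    rw [SD.α, sum_eq_zero fun j _ => by rw [h7, mul_zero], add_zero, h4] at hx
    refine Or.inr ⟨h7, ?_⟩
    rw [hx]
    by_cases e1 : e = 1
    · obtain ⟨O, Z, h8⟩ := h6 e1
      exact Or.inr ⟨by simp [e1], (exp_good_reg C.ok hP h0 h.hyp.bs hX.rd hX.rv hp h8).2⟩
    · exact Or.inl ⟨e, by omega, rfl⟩
  · obtain ⟨h1, h2⟩ := exp_good_null C.ok (hE.nb 3 f C.W C.ok) hP h0 h.hyp.bs hX.rd hX.rv hΓ hi
      hY.T1 hc hn
    exact Or.inr ⟨fun j => hL.sum_off hi _,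
      Or.inr ⟨RIT.eps_eq ⟨p, hp⟩ (a := 1) (by simpa using h1), h2⟩⟩

end Pool.Agent.MP_ee8c61_ag.M3KV

namespace Pool.Agent.MP_ee8c61_ag.M3K

open H59 M3 M3E M3RESID Finset

theorem ipen0 (hE : EOut) (hK : KOut) (hV : Q3P.IVol0) (hKv : Q3P.IKvl0) : Q3.IPen0 := by
  classical
  intro f la b β Q M C o X Y hS hXo hY hD hP
  have hM := hS.ok
  have ho := hS.alive
  have K := hK.ka 3 f M C hM
  have B := hE.bas 3 f C.W C.ok
  have BM := hE.bas 3 f M hM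
  have hv : (M.v o).pl.o = C.W.v (C.D.e o) := (C.D.v o).symm
  have lv : ∀ {Γ}, Cv (C.sd la b o X Y).x Γ → Lv C.W (C.D.e o) (M.v o).pl Γ := fun h =>
    lv_of C.ok B.toBas1 hv h.bas
  have a0 : (M.a o : ℚ) ≠ 0 := Nat.cast_ne_zero.2 (hM.pos o).ne'
  have ept : ∀ t, C.pt la o t = M.nu + t • C.h - (la + t * (C.h o / M.a o)) • M.q M.aa :=
    fun t => funext fun j => by
      simp only [Ch.pt, Ch.hp, Mod.ex, Mod.nu, Mod.aa, Pi.add_apply, Pi.sub_apply, Pi.smul_apply,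
        Mod.q_apply, smul_eq_mul, Int.cast_natCast]
      ring
  have pt0 : ∀ t (c : C.W.J → ℤ), C.W.q c = Y.m • C.P (C.pt la o t) → c (C.D.e o) = 0 := by
    intro t c e
    have h1 := congrFun e (C.D.e o)
    have h2 : C.pt la o t o = 0 := by
      simp only [Ch.pt, Ch.hp, Pi.add_apply, Pi.sub_apply, Pi.smul_apply, hS.zero, Mod.q_apply,
        Mod.aa, smul_eq_mul, Int.cast_natCast, div_mul_cancel₀ _ a0, sub_self, mul_zero, add_zero]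
    rw [Pi.smul_apply, ho, h2, smul_zero] at h1
    exact_mod_cast (show ((c (C.D.e o) : ℤ) : ℚ) = 0 from h1)
  have cst : ∀ y : (M.v o).kf, (∀ Z : VF (M.v o).kf, Z y = 0) → ∃ c, y = algebraMap ℂ _ c := by
    intro y hy
    by_contra! h
    obtain ⟨Z, hZ⟩ := M3F.exists_der X.Co hXo.fin (M3F.tr_of_nc h)
    exact hZ (hy Z)
  have hO := BM.ov_v o
  have hx : ∀ l, ¬Tc (M.v o).O (xx 3 l) := fun l => by
    obtain ⟨c, hc⟩ := cst _ (hP _ (IntermediateField.subset_adjoin _ _ (Or.inl ⟨l, rfl⟩)))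
    exact not_tc (hO _) hc
  have tv : Triv C.W (M.v o).O (C.P (M.nu + C.t • C.h)) := by
    obtain ⟨s, hs, hG⟩ := hY.T0.2 _ hO
    have c0 := pt0 _ _ hY.c0
    have hF : ∀ g ∈ Y.T0, g ∈ (M.v o).F 0 := fun g hg => by
      have := (B.oc_v (C.D.e o) _ g).1 (hY.T0.1 g hg _ (B.ov_v _))
      rwa [c0, neg_zero, C.D.v] at this
    have hu : Un (M.v o).O s := by
      have := (B.gen_v (C.D.e o) _ s).1 (by rwa [C.D.v])
      rw [c0, neg_zero, C.D.v] at this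
      exact (M.v o).un_O.2 this
    refine triv_pt hE hK.ka hM hY.m (ept _ ▸ hY.c0) (s := s) fun V' h1 h2 =>
      gen_le hE C.ok hY.T0 (hY.T0.1 s hs) hO hG (fun s' hs' => ?_) h1 h2
    obtain ⟨c, hc⟩ := cst _ (hP _ (IntermediateField.subset_adjoin _ _
      (Or.inr ⟨_, mem_image_of_mem _ hs, _, mem_image_of_mem _ hs', rfl⟩)))
    refine not_tc (c := c) (mul_mem (hF s' hs') hu.2.2 : s' * s⁻¹ ∈ (M.v o).O) ?_
    rw [div_eq_mul_inv, (M.v o).pl.mul _ (hF s' hs') _ hu.2.2, pi_inv (P := (M.v o).pl) hu,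
      ← div_eq_mul_inv, hc]
  refine or_iff_not_imp_right.2 fun h1 => ?_
  simp only [SD.One, not_forall] at h1
  obtain ⟨j, j', Γ, Γ', v1, n1, b1, v2, n2, b2, hj⟩ := h1
  have kv := hKv f la b β Q M C o X Y hS hXo hY
  have core : ∀ {j Γ}, Cv (C.sd la b o X Y).x Γ → ¬Null (C.sd la b o X Y).x (C.sd la b o X Y).S1 Γ →
      (C.sd la b o X Y).β j Γ ≠ 0 → (C.sd la b o X Y).β j Γ = 1 ∧
        ∀ l, l ≠ j → (C.sd la b o X Y).β l Γ = 0 := fun {j Γ} h1 h2 h3 => by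
    rcases kv Γ h1 h2 with ⟨l, h4⟩ | h4
    · obtain rfl : j = l := by_contra fun e => h3 (h4.2.2 j e)
      exact h4.2
    · exact absurd (h4.1 j) h3
  obtain ⟨w, hw⟩ := hD.2.1
  obtain ⟨p, p', hp, hu⟩ : ∃ p p' : ℚ, (p ≠ 0 ∨ p' ≠ 0) ∧
      w (p • M.q (M.e j.1) + p' • M.q (M.e j'.1)) = 0 := by
    by_cases h : w (M.q (M.e j.1)) = 0
    · exact ⟨1, 0, Or.inl one_ne_zero, by simp [h]⟩
    · exact ⟨-w (M.q (M.e j'.1)), _, Or.inr h, by simp [mul_comm]⟩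
  obtain ⟨c₁, c₁', c₂, c₂', n, s₁, s₂, hn, m₁, m₂, e, a₁, a₂, hG⟩ :=
    pen_sec hE hK.ng0 hK.ka hM hO hx hw tv hu
  have ey : C.W.q (c₁' + -c₂') =
      n • (p • C.P (M.q (M.e j.1)) + p' • C.P (M.q (M.e j'.1))) := by
    rw [← sub_eq_add_neg, C.W.q_sub, m₁.eq, m₂.eq, ← map_sub, e, map_smul, map_add, map_smul,
      map_smul]
  have y0 : (c₁' + -c₂') (C.D.e o) = 0 := by
    have h1 := congrFun ey (C.D.e o)
    simp only [Pi.smul_apply, Pi.add_apply, ho _, Mod.q_apply, M.e_apply, if_neg j.2.1.symm,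
      if_neg j'.2.1.symm, Int.cast_zero, smul_zero, add_zero] at h1
    exact_mod_cast h1
  have ord : ∀ {Γ}, Cv (C.sd la b o X Y).x Γ → s₁ / s₂ ∈ (M.v o).F 0 ∧
      (Γ.v ((M.v o).pl.π (s₁ / s₂)) : ℚ) =
        -(n * (p * (C.sd la b o X Y).β j Γ + p' * (C.sd la b o X Y).β j' Γ)) := fun {Γ} h => by
    obtain ⟨g₁, g₂⟩ := hG _ lift_le (lv h).ov
    obtain ⟨h1, -, h2⟩ := ((lv h).gen_iff y0).1
      (B.gen_mul _ _ _ _ _ g₁ (B.gen_inv _ _ _ g₂))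
    rw [← div_eq_mul_inv] at h1 h2
    refine ⟨h1, ?_⟩
    rw [h2]
    simp only [Ch.sd, mul_sum, ← sum_add_distrib]
    push_cast
    refine congrArg _ (sum_congr rfl fun i _ => ?_)
    have h3 := congrFun ey i
    simp only [Pi.smul_apply, Pi.add_apply, Mod.q_apply, smul_eq_mul] at h3
    rw [Pi.add_apply, h3]
    ring
  refine ⟨(M.v o).pl.π (s₁ / s₂), ?_, fun Γ'' v3 n3 hc => ?_⟩
  · by_contra! h
    obtain ⟨c, hc⟩ := cst _ h
    have h1 := (ord v1).2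
    have h2 := (ord v2).2
    rw [hc, DV.cst, (core v1 n1 b1).1, (core v1 n1 b1).2 j' (Ne.symm hj)] at h1
    rw [hc, DV.cst, (core v2 n2 b2).1, (core v2 n2 b2).2 j hj] at h2
    simp only [Int.cast_zero, mul_one, mul_zero, add_zero, zero_add, zero_eq_neg, mul_eq_zero,
      hn.ne', false_or] at h1 h2
    exact hp.elim (fun h => h h1) fun h => h h2
  have L := lv v3
  have hx' : ∀ l, ¬Tc (lift (M.v o).pl Γ'') (xx 3 l) := fun l h =>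
    n3.1 l ((nc_iff (hO _)).2 h)
  have tv' : Triv C.W (lift (M.v o).pl Γ'') (C.P (M.nu + Y.t1 • C.h)) := by
    obtain ⟨s, hs, hG⟩ := hY.T1.2 _ L.ov
    have c0 := pt0 _ _ hY.c1
    refine triv_pt hE hK.ka hM hY.m (ept _ ▸ hY.c1) (s := s) fun V' h1 h2 =>
      gen_le hE C.ok hY.T1 (hY.T1.1 s hs) L.ov hG (fun s' hs' h => ?_) h1 h2
    obtain ⟨h3, h4⟩ := L.pi_ratio c0 (hY.T1.1 s' hs') hG
    exact n3.2 _ ((L.gns_iff hY.T1 c0 hs).2 hG) _ (mem_image_of_mem _ hs')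
      (h4 ▸ (nc_iff h3.1).2 h)
  obtain ⟨g₁, g₂⟩ := hG _ lift_le L.ov
  obtain ⟨W', D', h, i, h1, h2⟩ := null_dl hE hK hM ho L.ov lift_le
    (fun c L' hp n => not_nn_of_triv hE hK.ng0 hK.ka hM L.ov hx' hY.inn tv' hp n) m₁ m₂ a₁ a₂ g₁ g₂
    ((nc_iff (ord v3).1).1 hc)
  have h3 : Exp (dvf f la) (M.v o).pl.o 0 := by
    have := exp_v hM la o
    rwa [hS.zero, Rat.cast_zero] at this
  have h4 : (C.sd la b o X Y).ex Γ'' = W'.ex la i :=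
    M3Z.Fl.exp_eq (f := f) (M := W') (P := (M.v o).pl) (G := Γ''.pl) (e := D'.e (C.D.e o))
      ⟨h.ok, hE.bas 3 f W' h.ok, hE.der 3 f W' h.ok, hE.cv 3 f W' h.ok, rowUnr,
        ((D'.v _).trans (C.D.v o)).symm, v3.sur, h1⟩ h3 hXo.rd
      ((hV f la b β Q M C o X Y hS hXo hY).exp Γ'' v3)
  have h5 : (C.sd la b o X Y).α Γ'' = (refine C D' h).P (M.ex la) i := by
    show _ = D'.pb (C.P (M.ex la)) i
    rw [← sum_pb hE h.ok C.ok D' L v3.sur h1 ((ho _).trans hS.zero), P_nb hK.ka C hM hS.zero]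
    simp only [SD.α, Ch.sd, mul_sum, Finset.sum_apply, Pi.smul_apply, smul_eq_mul, sum_mul,
      mul_assoc]
    exact sum_comm
  have h6 : M.ex la = M.nu - la • M.q M.aa := funext fun j => by
    simp [Mod.ex, Mod.nu, Mod.aa]
  rw [h4, h5, h6, map_sub, map_smul, (hK.ka 3 f M (refine C D' h) hM).aa]
  have h7 : (W'.k i : ℚ) + 1 - (refine C D' h).P M.nu i = 0 := h2
  show (W'.k i : ℚ) + 1 - la * W'.a i = (refine C D' h).P M.nu i - la * ((W'.a i : ℤ) : ℚ)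
  rw [Int.cast_natCast]
  linarith

end Pool.Agent.MP_ee8c61_ag.M3K

namespace Pool.Agent.MP_ee8c61_ag.Q3P

open M3 Q3

theorem iok1 (E : M3E.EOut) : IOK1 := fun f la b β Q M C o X Y h hX hY =>
  have K := kout_of E
  ⟨M3RESID.rowIVol0 f la b β Q M C o X Y h hX hY, M3CH.rISem0 E f la b β Q M C o X Y h hX hY,
    M3I44.inul0 E K.ka f la b β Q M C o X Y h hX hY,
    M3I44.ibig0 E K.ka K.bir f la b β Q M C o X Y h hX hY,
    M3I44.rowSgn0 E M3RESID.rowIVol0 f la b β Q M C o X Y h hX hY,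
    M3KV.ikvl0 E K f la b β Q M C o X Y h hX hY⟩

theorem pout_of (E : M3E.EOut) (hS : SCH) : POut :=
  have K := kout_of E
  ⟨M3RESID.rowIAV0, M3CH.rIAS E, iok1 E, M3I44.ismall0 E K.ka K.wall,
    M3K.ipen0 E K M3RESID.rowIVol0 (M3KV.ikvl0 E K), hS⟩

end Pool.Agent.MP_ee8c61_ag.Q3P
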